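import Pool.Agent.Y750.CL.Upper
import Pool.Agent.H690R3.Lab.CwNamed

/-!
# The leading constant of adjacency labels for clique-width `k` is of order `k`

`HasSchemeOfSize C c` (adjacency labelling schemes of size `(c + o(1)) log₂ n`), `CwLE G k`
(clique-width at most `k`) are the definitions of the starting file `CliqueWidthNo`.

For every `k` the class of the graphs of clique-width at most `k` has a scheme with
`c = (k + 1) / log₂ (3/2)`, and for `k ≥ 9` it has none with `c < (k - 8) / 24`.  So
the least constant is between two linear functions of `k`; in particular no constant `c` works for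
all `k`.
-/

set_option autoImplicit false

open Pool.Agent.H690R3.Lab Pool.Agent.H175R2

namespace Pool.Agent.Results.MP_974ce4_co.CliqueWidthLinear

/-- **Result.**  (1) For `k ≥ 9` and `c < (k - 8) / 24` the class of all graphs of clique-width at
most `k` has no adjacency labelling scheme of size `(c + o(1)) log n`; in particular for every
constant `c` there are such `k`.  (2) For every `k` it has one for `c = (k + 1) / log₂ (3/2)`. -/
theorem result :
    (∀ (c : ℝ) (k : ℕ), 9 ≤ k → c < ((k : ℝ) - 8) / 24 →
      ¬ HasSchemeOfSize (fun _ G => CwLE G k) c) ∧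
    (∀ k : ℕ, HasSchemeOfSize (fun _ G => CwLE G k) (((k : ℝ) + 1) / Real.logb 2 (3 / 2))) := by
  refine ⟨?_, fun k => Pool.Agent.Y750.CL.upper k⟩
  intro c k hk hc h
  have hm1 : 1 ≤ (k - 3) / 6 := by omega
  have h1 := const_bound h ((k - 3) / 6) hm1 (fun h T =>
    Pool.Agent.Y750.CL.cwLE_mono (by omega) (cwLE_named hm1 h T))
  have h2 : k ≤ 6 * ((k - 3) / 6) + 8 := by omega
  have h3 : (k : ℝ) ≤ 6 * (((k - 3) / 6 : ℕ) : ℝ) + 8 := by exact_mod_cast h2
  linarith

end Pool.Agent.Results.MP_974ce4_co.CliqueWidthLinear
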